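import Pool.Agent.U401.DE.Stm
import Pool.Agent.U136.DS.Asm

set_option autoImplicit false

/-! Project DE: assembly of the proof from its parts. -/

namespace Pool.Agent.U401.DE

open MeasureTheory ProbabilityTheory Pool.Agent.N983.RT Pool.Agent.U136.DS

/-- the deterministic criterion -/
theorem crit0 (hSUM : S_SUM) (hALG : S_ALG) (hRHS : S_RHS) (hODE : S_ODE0)
    (hCMP : S_CMP0) (hUNQ : S_UNQ0) (hS3 : S_S3) (hS4 : S_S4) (hQB : S_QB0) (hRB : S_RB0)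
    (hDQ : S_DQ) (hNB : S_NB0) (hAPR : S_APR0) (ν : ℝ) (lam : Wv → ℝ) (c₁ τ : ℝ) (R₀ : ℕ)
    (hν : 0 ≤ ν) (hlam : Disp lam) (hc : 0 < c₁) (hτ : 5 < τ) (hτ' : τ < 6)
    (hfin : Fin0 lam c₁ τ R₀) : GWPD ν lam := by
  intro u₀ hA hR
  have hest : ∀ s : ℕ, 3 ≤ s → ∀ M ε : ℝ, 0 < ε → ∃ C : ℝ, ∀ (n : ℕ) (u : Fld), Adm u →
      (∀ k, k ∉ cub n → u k = 0) → En 0 n u ≤ M →
        ‖form (hnf lam c₁ τ) s n u‖ ≤ ε * En s n u + C ∧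
        ‖dform (hnf lam c₁ τ) s n u (rhs (cutg n one) ν 1 u)‖ ≤ ε * En s n u + C ∧
        ‖form (near lam c₁ τ) s n u‖ ≤ C := by
    intro s hs M ε hε
    obtain ⟨C₁, h1⟩ := hQB hS3 lam c₁ τ hc hτ hτ' s hs M ε hε
    obtain ⟨C₂, h2⟩ := hRB hS3 hS4 lam c₁ τ ν hc hτ hτ' hν s hs M ε hε
    obtain ⟨C₃, h3⟩ := hNB lam c₁ τ R₀ hfin s M
    refine ⟨max C₁ (max C₂ C₃), fun n u hu hn hM => ⟨?_, ?_, ?_⟩⟩
    · exact (h1 n u hu hn hM).trans (by linarith [le_max_left C₁ (max C₂ C₃)])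
    · exact (h2 n u hu hn hM).trans
        (by linarith [(le_max_left C₂ C₃).trans (le_max_right C₁ (max C₂ C₃))])
    · exact (h3 n u hu hn hM).trans ((le_max_right C₂ C₃).trans (le_max_right C₁ (max C₂ C₃)))
  have h1 : ∀ n : ℕ, ∃ u : ℝ → Fld, IsSolD (cutg n one) ν lam u ∧ u 0 = cut n u₀ ∧
      ∀ t, 0 ≤ t → ∀ k, k ∉ cub n → u t k = 0 :=
    fun n => hODE hALG ν lam n hν hlam u₀ hA
  choose U hUsol hU0 hUcub using h1
  have hbd : ∀ (T : ℝ) (s : ℕ), ∃ C : ℝ, ∀ n t, 0 ≤ t → t ≤ T → ∀ k i,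
      (1 + nsq k) ^ s * ‖U n t k i‖ ≤ C := by
    intro T s
    obtain ⟨C₀, hC₀⟩ := hAPR hSUM hALG ν lam c₁ τ hν hlam hc hest hDQ u₀ hA hR 0 T
    obtain ⟨C₁, hC₁⟩ := hAPR hSUM hALG ν lam c₁ τ hν hlam hc hest hDQ u₀ hA hR (2 * s) T
    refine ⟨Real.sqrt (2 ^ (2 * s) * (C₀ + C₁)), fun n t ht hT k i => ?_⟩
    exact asm_pt n s (U n t) (hUcub n t ht) C₀ C₁
      (hC₀ n (U n) (hUsol n) (hU0 n) (hUcub n) t ht hT)
      (hC₁ n (U n) (hUsol n) (hU0 n) (hUcub n) t ht hT) k i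
  obtain ⟨u, hu, hu0⟩ := hCMP hSUM hRHS ν lam hν hlam u₀ hA hR U hUsol hU0 hbd
  exact ⟨u, hu, hu0, fun v hv hv0 t ht => hUNQ hSUM ν lam hν hlam v u hv hu (by rw [hv0, hu0]) t ht⟩

/-- amplitudes -/
theorem fin0_smul (lam : Wv → ℝ) (τ ε : ℝ) (R₀ : ℕ) (hε : ε ≠ 0) (h : Fin0 lam 1 τ R₀) :
    Fin0 (fun k => ε * lam k) |ε| τ R₀ := by
  have h0 : 0 < |ε| := abs_pos.2 hε
  have h1 : ∀ k l m, near (fun k => ε * lam k) |ε| τ k l m = near lam 1 τ k l m := by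
    intro k l m
    unfold near
    have e1 : (|ε * lam k + ε * lam l + ε * lam m| < |ε| * mx k l m ^ (τ / 2)) =
        (|lam k + lam l + lam m| < 1 * mx k l m ^ (τ / 2)) := by
      rw [show ε * lam k + ε * lam l + ε * lam m = ε * (lam k + lam l + lam m) by ring, abs_mul,
        one_mul]
      exact propext (mul_lt_mul_iff_right₀ h0)
    simp only [e1]
  intro k l hkl
  rw [h1] at hkl
  exact h k l hkl

/-- random dispersion -/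
theorem asm0 (hSUM : S_SUM) (hALG : S_ALG) (hRHS : S_RHS) (hODE : S_ODE0)
    (hCMP : S_CMP0) (hUNQ : S_UNQ0) (hS3 : S_S3) (hS4 : S_S4) (hQB : S_QB0) (hRB : S_RB0)
    (hDQ : S_DQ) (hNB : S_NB0) (hAPR : S_APR0) (hPR1 : S_PR1) (hFIN : S_FIN) (σ : ℝ) (hσ : 11 < σ)
    (Ω : Type) [MeasurableSpace Ω] (μ : Measure Ω) [IsProbabilityMeasure μ]
    (Z : Sym2 Wv → Ω → ℝ) (e : Wv → ℝ) (hZ : ∀ c, Measurable (Z c)) (hi : iIndepFun Z μ)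
    (he : Sgn e) (D D' : ℝ) (hD : Dens μ Z D) (hb : ∀ c, ∀ᵐ ω ∂μ, |Z c ω| ≤ D') :
    ∀ᵐ ω ∂μ, ∀ ν ε : ℝ, 0 ≤ ν → ε ≠ 0 → GWPD ν (fun k => ε * rlam σ e Z ω k) := by
  set τ : ℝ := min (11 / 2) (5 + (σ - 11) / 2) with hτ
  have h1 : 5 < τ := lt_min (by norm_num) (by linarith)
  have h2 : τ < 6 := lt_of_le_of_lt (min_le_left _ _) (by norm_num)
  have h3 : τ ≤ 5 + (σ - 11) / 2 := min_le_right _ _
  have hD2 : Dens μ Z (max D 0) := by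
    intro c x h hh
    refine (hD c x h hh).trans (ENNReal.ofReal_le_ofReal ?_)
    exact mul_le_mul_of_nonneg_right (le_max_left _ _) hh
  have hfin := hFIN hPR1 (max D 0) σ τ (le_max_right _ _) (by linarith)
    (by linarith) (by linarith) Ω μ Z e hZ hi he hD2
  filter_upwards [hfin, ae_all_iff.2 hb] with ω h7 h8
  obtain ⟨R₀, hR₀⟩ := h7
  intro ν ε hν hε
  exact crit0 hSUM hALG hRHS hODE hCMP hUNQ hS3 hS4 hQB hRB hDQ hNB hAPR ν _ |ε| τ R₀ hν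
    (disp_smul _ ε (disp_rlam σ (by linarith) e he Z ω D' h8)) (abs_pos.2 hε) h1 h2
    (fin0_smul _ τ ε R₀ hε hR₀)

end Pool.Agent.U401.DE
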