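import Pool.Agent.U401.DE.Stm
import Pool.Agent.U692.DS.RB

/-!
Project DE, part RB0: the remainder of the normal form without help of the viscosity. The proof is
the one of part RB of project DS (helper692), for `0 ≤ ν` and with other exponents.
-/

set_option autoImplicit false
set_option maxHeartbeats 1000000

namespace Pool.Agent.U401.DE

open Pool.Agent.N983.RT Pool.Agent.U136.DS Pool.Agent.U692.DS Finset

theorem Rb_nonneg0 (n : ℕ) {ν : ℝ} (hν : 0 ≤ ν) (f : Wv → ℝ) (hf : ∀ k, 0 ≤ f k) (m : Wv) :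
    0 ≤ Rb n ν f m := by
  unfold Rb
  split_ifs
  · have h1 := nsq_nonneg m
    have h2 := hf m
    have h3 := Gf_nonneg n f hf m
    positivity
  · exact le_rfl

theorem rhs_le0 {n : ℕ} {ν : ℝ} (hν : 0 ≤ ν) {u : Fld} (hu : Adm u)
    (hs : ∀ k, k ∉ cub n → u k = 0) (m : Wv) (j : Fin 3) :
    ‖rhs (cutg n one) ν 1 u m j‖ ≤ Rb n ν (fu u) m := by
  unfold Rb
  split_ifs with hm
  · unfold rhs
    rw [Real.rpow_one]
    refine (norm_sub_le _ _).trans (add_le_add ?_ ?_)
    · rw [norm_mul, norm_neg, Complex.norm_real, Real.norm_of_nonneg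
        (mul_nonneg hν (nsq_nonneg m))]
      exact mul_le_mul_of_nonneg_left (le_fu u m j) (mul_nonneg hν (nsq_nonneg m))
    · rw [norm_mul, Complex.norm_I, one_mul]
      refine (prj_le m _ _ (fun i => conv_le hu m i) j).trans (le_of_eq ?_)
      ring
  · have h1 : conv (cutg n one) u m = 0 := by
      funext i
      rw [conv_eq]
      refine Finset.sum_eq_zero fun k _ => ?_
      have : cutg n one k (m - k) (-m) = 0 := by
        unfold cutg
        rw [if_neg]
        exact fun h => hm (mem_cub_neg h.2.2)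
      rw [this]
      simp
    unfold rhs prj dt
    rw [h1, hs m hm]
    simp

theorem part30 {n : ℕ} {ν P : ℝ} (hν : 0 ≤ ν) {f : Wv → ℝ} (hf : ∀ k, 0 ≤ f k) :
    ∑ k ∈ cub n, ∑ l ∈ cub n, mx k l (-(k + l)) ^ P * (f k * f l * Rb n ν f (-(k + l))) ≤
      BB n ν P f := by
  unfold BB
  rw [Finset.sum_comm, Finset.sum_comm (s := cub n) (t := cub n)
    (f := fun k l => mx k l (-(k + l)) ^ P * (Rb n ν f k * f l * f (-(k + l))))]
  refine Finset.sum_le_sum fun l _ => ?_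
  have h := shift (n := n)
    (H := fun m => mx m l (-(m + l)) ^ P * (Rb n ν f m * f l * f (-(m + l))))
    (fun m => mul_nonneg (Real.rpow_nonneg (mx_nonneg _ _ _) _)
      (mul_nonneg (mul_nonneg (Rb_nonneg0 n hν f hf m) (hf l)) (hf _)))
    (fun m hm => by
      have : Rb n ν f m = 0 := by unfold Rb; rw [if_neg hm]
      simp only [this, zero_mul, mul_zero])
    (φ := fun k => -(k + l)) (fun a b hab => by simpa using hab)
  refine le_trans (le_of_eq ?_) h
  refine Finset.sum_congr rfl fun k _ => ?_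
  have e : -(-(k + l) + l) = k := by abel
  simp only [e]
  rw [mx_13 (-(k + l)) l k]
  ring

theorem BB_le0 {n : ℕ} {ν P : ℝ} (hP : 0 ≤ P) (hν : 0 ≤ ν) {f : Wv → ℝ} (hf : ∀ k, 0 ≤ f k)
    (hf0 : ∀ k, k ∉ cub n → f k = 0) :
    BB n ν P f ≤ ν * (∑ k ∈ cub n, ∑ l ∈ cub n, mx k l (-(k + l)) ^ (P + 1) *
        (f k * f l * f (-(k + l)))) +
      12 * ∑ a ∈ cub n, ∑ b ∈ cub n, ∑ l ∈ cub n,
        mx (a + b) l (-(a + b + l)) ^ (P + 1 / 2) * (f a * f b * f l * f (-(a + b + l))) := by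
  have h1 : BB n ν P f ≤ ∑ k ∈ cub n, ∑ l ∈ cub n, (ν * (mx k l (-(k + l)) ^ (P + 1) *
        (f k * f l * f (-(k + l)))) + 12 * ∑ a ∈ cub n, mx k l (-(k + l)) ^ (P + 1 / 2) *
          (f a * f (k - a) * f l * f (-(k + l)))) := by
    unfold BB
    refine Finset.sum_le_sum fun k hk => Finset.sum_le_sum fun l _ => ?_
    set w := mx k l (-(k + l)) with hw
    have hw0 : 0 ≤ w := mx_nonneg _ _ _
    have hR : Rb n ν f k = ν * nsq k * f k + 12 * Real.sqrt (nsq k) * Gf n f k := by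
      unfold Rb; rw [if_pos hk]
    have e1 : w ^ (P + 1) = w ^ P * w := by
      rw [Real.rpow_add_of_nonneg hw0 hP zero_le_one, Real.rpow_one]
    have e2 : w ^ (P + 1 / 2) = w ^ P * Real.sqrt w := by
      rw [Real.rpow_add_of_nonneg hw0 hP (by norm_num), Real.sqrt_eq_rpow]
    have hwP : 0 ≤ w ^ P := Real.rpow_nonneg hw0 _
    have hG := Gf_nonneg n f hf k
    have hfk := hf k
    have hfl := hf l
    have hfm := hf (-(k + l))
    have h2 : nsq k ≤ w := le_mx1 _ _ _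
    have h3 : Real.sqrt (nsq k) ≤ Real.sqrt w := Real.sqrt_le_sqrt h2
    have e3 : ∑ a ∈ cub n, w ^ (P + 1 / 2) * (f a * f (k - a) * f l * f (-(k + l))) =
        w ^ P * Real.sqrt w * (Gf n f k * f l * f (-(k + l))) := by
      unfold Gf
      rw [e2, Finset.sum_mul, Finset.sum_mul, Finset.mul_sum]
    rw [e3, e1, hR]
    have t1 : w ^ P * (ν * nsq k * f k * f l * f (-(k + l))) ≤
        w ^ P * (ν * w * f k * f l * f (-(k + l))) := by gcongr
    have t2 : w ^ P * (12 * Real.sqrt (nsq k) * Gf n f k * f l * f (-(k + l))) ≤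
        w ^ P * (12 * Real.sqrt w * Gf n f k * f l * f (-(k + l))) := by gcongr
    calc w ^ P * ((ν * nsq k * f k + 12 * Real.sqrt (nsq k) * Gf n f k) * f l * f (-(k + l)))
        = w ^ P * (ν * nsq k * f k * f l * f (-(k + l))) +
          w ^ P * (12 * Real.sqrt (nsq k) * Gf n f k * f l * f (-(k + l))) := by ring
      _ ≤ w ^ P * (ν * w * f k * f l * f (-(k + l))) +
          w ^ P * (12 * Real.sqrt w * Gf n f k * f l * f (-(k + l))) := add_le_add t1 t2
      _ = _ := by ring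
  refine h1.trans ?_
  have h2 : ∑ k ∈ cub n, ∑ l ∈ cub n, ∑ a ∈ cub n, mx k l (-(k + l)) ^ (P + 1 / 2) *
          (f a * f (k - a) * f l * f (-(k + l))) ≤
      ∑ a ∈ cub n, ∑ b ∈ cub n, ∑ l ∈ cub n,
        mx (a + b) l (-(a + b + l)) ^ (P + 1 / 2) * (f a * f b * f l * f (-(a + b + l))) := by
    have e : ∑ k ∈ cub n, ∑ l ∈ cub n, ∑ a ∈ cub n, mx k l (-(k + l)) ^ (P + 1 / 2) *
          (f a * f (k - a) * f l * f (-(k + l))) =
        ∑ a ∈ cub n, ∑ k ∈ cub n, ∑ l ∈ cub n, mx k l (-(k + l)) ^ (P + 1 / 2) *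
          (f a * f (k - a) * f l * f (-(k + l))) := by
      rw [Finset.sum_comm (s := cub n) (t := cub n)
        (f := fun a k => ∑ l ∈ cub n, mx k l (-(k + l)) ^ (P + 1 / 2) *
          (f a * f (k - a) * f l * f (-(k + l))))]
      exact Finset.sum_congr rfl fun k _ => Finset.sum_comm
    rw [e]
    refine Finset.sum_le_sum fun a _ => ?_
    have h := shift (n := n)
      (H := fun b => ∑ l ∈ cub n,
        mx (a + b) l (-(a + b + l)) ^ (P + 1 / 2) * (f a * f b * f l * f (-(a + b + l))))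
      (fun b => Finset.sum_nonneg fun l _ => mul_nonneg (Real.rpow_nonneg (mx_nonneg _ _ _) _)
        (mul_nonneg (mul_nonneg (mul_nonneg (hf a) (hf b)) (hf l)) (hf _)))
      (fun b hb => Finset.sum_eq_zero fun l _ => by rw [hf0 b hb]; ring)
      (φ := fun k => k - a) (fun x y hxy => by simpa using hxy)
    refine le_trans (le_of_eq ?_) h
    refine Finset.sum_congr rfl fun k _ => ?_
    have e : a + (k - a) = k := by abel
    simp only [e]
  calc ∑ k ∈ cub n, ∑ l ∈ cub n, (ν * (mx k l (-(k + l)) ^ (P + 1) *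
        (f k * f l * f (-(k + l)))) + 12 * ∑ a ∈ cub n, mx k l (-(k + l)) ^ (P + 1 / 2) *
          (f a * f (k - a) * f l * f (-(k + l))))
      = ν * (∑ k ∈ cub n, ∑ l ∈ cub n, mx k l (-(k + l)) ^ (P + 1) *
          (f k * f l * f (-(k + l)))) +
        12 * ∑ k ∈ cub n, ∑ l ∈ cub n, ∑ a ∈ cub n, mx k l (-(k + l)) ^ (P + 1 / 2) *
          (f a * f (k - a) * f l * f (-(k + l))) := by
        rw [Finset.mul_sum, Finset.mul_sum, ← Finset.sum_add_distrib]
        refine Finset.sum_congr rfl fun k _ => ?_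
        rw [Finset.mul_sum, Finset.mul_sum, ← Finset.sum_add_distrib]
    _ ≤ _ := add_le_add le_rfl (mul_le_mul_of_nonneg_left h2 (by norm_num))

/-- (RB0) the remainder of the normal form -/
theorem t_RB0 : S_RB0 := by
  intro hS3 hS4 lam c₁ τ ν hc hτ hτ4 hν s hs M ε hε
  have hs2 : (3 : ℝ) ≤ s := by exact_mod_cast hs
  set P : ℝ := (s : ℝ) + 1 / 2 - τ / 2 with hP
  have hP0 : 0 ≤ P := by rw [hP]; linarith
  set η : ℝ := (τ / 2 - 5 / 2) / 2 with hη
  have hη0 : 0 < η := by rw [hη]; linarith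
  obtain ⟨C3, hC3, h3⟩ := hS3 (2 * (P + 1)) η (by linarith) hη0
  obtain ⟨C4, hC4, h4⟩ := hS4 (2 * (P + 1 / 2)) η (by linarith) hη0
  set M' : ℝ := max M 0 with hM'
  have hM0 : 0 ≤ M' := le_max_right _ _
  set K3 : ℝ := 27 * c₁⁻¹ * ν * C3 * Real.sqrt M' with hK3
  set K4 : ℝ := 27 * c₁⁻¹ * 12 * C4 * M' with hK4
  have hK30 : 0 ≤ K3 := by positivity
  have hK40 : 0 ≤ K4 := by positivity
  obtain ⟨D3, hD3, i3⟩ := interp_sum (b := P + 1 + 3 / 4 + η) (B := (s : ℝ))
    (ε := ε / (2 * (K3 + 1))) (by positivity) (by rw [hP, hη]; linarith) (by positivity)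
  obtain ⟨D4, hD4, i4⟩ := interp_sum (b := P + 1 / 2 + 3 / 2 + η) (B := (s : ℝ))
    (ε := ε / (2 * (K4 + 1))) (by positivity) (by rw [hP, hη]; linarith) (by positivity)
  refine ⟨K3 * (D3 * M') + K4 * (D4 * M'), fun n u hu hsup hE => ?_⟩
  set f : Wv → ℝ := fu u with hf
  have hf0 : ∀ k, 0 ≤ f k := fu_nonneg u
  have hfz : f 0 = 0 := fu_zero hu.zero
  have hfs : ∀ k, k ∉ cub n → f k = 0 := fun k hk => fu_zero (hsup k hk)
  have hsum : ∑ k ∈ cub n, f k ^ 2 = En 0 n u := by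
    unfold En
    refine Finset.sum_congr rfl fun k _ => ?_
    rw [hf, fu_sq, pow_zero, one_mul]
  have hsumE : ∑ k ∈ cub n, nsq k ^ (s : ℝ) * f k ^ 2 = En s n u := by
    unfold En
    refine Finset.sum_congr rfl fun k _ => ?_
    rw [hf, fu_sq, Real.rpow_natCast]
  have hsM : ∑ k ∈ cub n, f k ^ 2 ≤ M' := by rw [hsum]; exact hE.trans (le_max_left _ _)
  have hs0 : 0 ≤ ∑ k ∈ cub n, f k ^ 2 := Finset.sum_nonneg fun _ _ => sq_nonneg _
  have hEr0 : 0 ≤ En s n u := by
    rw [← hsumE]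
    exact Finset.sum_nonneg fun k _ => mul_nonneg (Real.rpow_nonneg (nsq_nonneg k) _) (sq_nonneg _)
  -- the bound of `dform` by `BB`
  have hR := fun m j => rhs_le0 (n := n) hν hu hsup m j
  have hd : ‖dform (hnf lam c₁ τ) s n u (rhs (cutg n one) ν 1 u)‖ ≤ 27 * (c₁⁻¹ * BB n ν P f) := by
    unfold dform
    have hT : ∀ i j : Fin 3, ‖(Tri (fun k l => hnf lam c₁ τ k l (-(k + l)) *
          ((l i : ℝ) * nsq (k + l) ^ s)) n
        (fun k => rhs (cutg n one) ν 1 u k i) (fun k => u k j) (fun k => u k j) +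
      Tri (fun k l => hnf lam c₁ τ k l (-(k + l)) * ((l i : ℝ) * nsq (k + l) ^ s)) n
        (fun k => u k i) (fun k => rhs (cutg n one) ν 1 u k j) (fun k => u k j) +
      Tri (fun k l => hnf lam c₁ τ k l (-(k + l)) * ((l i : ℝ) * nsq (k + l) ^ s)) n
        (fun k => u k i) (fun k => u k j) (fun k => rhs (cutg n one) ν 1 u k j))‖ ≤
        3 * (c₁⁻¹ * BB n ν P f) := by
      intro i j
      have hco : ∀ k l : Wv, |hnf lam c₁ τ k l (-(k + l)) * ((l i : ℝ) * nsq (k + l) ^ s)| ≤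
          c₁⁻¹ * mx k l (-(k + l)) ^ P := fun k l => coef hc s i k l
      have pull : ∀ g : Wv → Wv → ℝ, ∑ k ∈ cub n, ∑ l ∈ cub n,
          c₁⁻¹ * mx k l (-(k + l)) ^ P * g k l =
          c₁⁻¹ * ∑ k ∈ cub n, ∑ l ∈ cub n, mx k l (-(k + l)) ^ P * g k l := by
        intro g
        rw [Finset.mul_sum]
        refine Finset.sum_congr rfl fun k _ => ?_
        rw [Finset.mul_sum]
        exact Finset.sum_congr rfl fun l _ => mul_assoc _ _ _
      have b1 := Tri_le (n := n) hco (fun k => hR k i) (fun k => le_fu u k j)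
        (fun k => le_fu u k j)
      have b2 := Tri_le (n := n) hco (fun k => le_fu u k i) (fun k => hR k j)
        (fun k => le_fu u k j)
      have b3 := Tri_le (n := n) hco (fun k => le_fu u k i) (fun k => le_fu u k j)
        (fun k => hR k j)
      rw [pull] at b1 b2 b3
      have c2 := part2 (n := n) (ν := ν) (P := P) (f := f)
      have c3 := part30 (n := n) (P := P) hν hf0
      have hci : 0 ≤ c₁⁻¹ := by positivity
      rw [c2] at b2
      have b3' := b3.trans (mul_le_mul_of_nonneg_left c3 hci)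
      refine (norm_add₃_le).trans ?_
      have b1' : _ ≤ c₁⁻¹ * BB n ν P f := b1
      linarith
    refine (norm_sum_le _ _).trans ?_
    refine (Finset.sum_le_sum fun i _ => (norm_sum_le _ _).trans
      (Finset.sum_le_sum fun j _ => hT i j)).trans (le_of_eq ?_)
    simp
    ring
  have hB := BB_le0 (n := n) (P := P) hP0 hν hf0 hfs
  have a3 := h3 n f hf0 hfz hfs
  have a4 := h4 n f hf0 hfz hfs
  have q3 : 2 * (P + 1) / 2 = P + 1 := by ring
  have q4 : 2 * (P + 1 / 2) / 2 = P + 1 / 2 := by ring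
  rw [q3] at a3
  rw [q4] at a4
  have j3 := i3 n f hfz
  have j4 := i4 n f hfz
  rw [hsumE] at j3 j4
  have hsq : Real.sqrt (∑ k ∈ cub n, f k ^ 2) ≤ Real.sqrt M' := Real.sqrt_le_sqrt hsM
  set S3 : ℝ := ∑ k ∈ cub n, nsq k ^ (P + 1 + 3 / 4 + η) * f k ^ 2 with hS3'
  set S4 : ℝ := ∑ k ∈ cub n, nsq k ^ (P + 1 / 2 + 3 / 2 + η) * f k ^ 2 with hS4'
  have hS30 : 0 ≤ S3 :=
    Finset.sum_nonneg fun k _ => mul_nonneg (Real.rpow_nonneg (nsq_nonneg k) _) (sq_nonneg _)
  have hS40 : 0 ≤ S4 :=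
    Finset.sum_nonneg fun k _ => mul_nonneg (Real.rpow_nonneg (nsq_nonneg k) _) (sq_nonneg _)
  have a3' := a3.trans (mul_le_mul_of_nonneg_right (mul_le_mul_of_nonneg_left hsq hC3) hS30)
  have a4' := a4.trans (mul_le_mul_of_nonneg_right (mul_le_mul_of_nonneg_left hsM hC4) hS40)
  have hci : 0 < c₁⁻¹ := by positivity
  have main : ‖dform (hnf lam c₁ τ) s n u (rhs (cutg n one) ν 1 u)‖ ≤ K3 * S3 + K4 * S4 := by
    refine hd.trans ?_
    have h5 : BB n ν P f ≤ ν * (C3 * Real.sqrt M' * S3) + 12 * (C4 * M' * S4) :=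
      hB.trans (add_le_add (mul_le_mul_of_nonneg_left a3' hν)
        (mul_le_mul_of_nonneg_left a4' (by norm_num)))
    have h6 := mul_le_mul_of_nonneg_left h5 hci.le
    calc 27 * (c₁⁻¹ * BB n ν P f) ≤
          27 * (c₁⁻¹ * (ν * (C3 * Real.sqrt M' * S3) + 12 * (C4 * M' * S4))) := by linarith
      _ = K3 * S3 + K4 * S4 := by rw [hK3, hK4]; ring
  have z3 : K3 * S3 ≤ ε / 2 * En s n u + K3 * (D3 * M') := by
    have h7 : S3 ≤ ε / (2 * (K3 + 1)) * En s n u + D3 * M' :=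
      j3.trans (add_le_add le_rfl (mul_le_mul_of_nonneg_left hsM hD3))
    have h8 := mul_le_mul_of_nonneg_left h7 hK30
    have h9 : K3 * (ε / (2 * (K3 + 1))) ≤ ε / 2 := by
      rw [← mul_div_assoc, div_le_iff₀ (by positivity)]
      nlinarith
    have h10 := mul_le_mul_of_nonneg_right h9 hEr0
    linarith [h8, h10, mul_add K3 (ε / (2 * (K3 + 1)) * En s n u) (D3 * M'),
      mul_assoc K3 (ε / (2 * (K3 + 1))) (En s n u)]
  have z4 : K4 * S4 ≤ ε / 2 * En s n u + K4 * (D4 * M') := by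
    have h7 : S4 ≤ ε / (2 * (K4 + 1)) * En s n u + D4 * M' :=
      j4.trans (add_le_add le_rfl (mul_le_mul_of_nonneg_left hsM hD4))
    have h8 := mul_le_mul_of_nonneg_left h7 hK40
    have h9 : K4 * (ε / (2 * (K4 + 1))) ≤ ε / 2 := by
      rw [← mul_div_assoc, div_le_iff₀ (by positivity)]
      nlinarith
    have h10 := mul_le_mul_of_nonneg_right h9 hEr0
    linarith [h8, h10, mul_add K4 (ε / (2 * (K4 + 1)) * En s n u) (D4 * M'),
      mul_assoc K4 (ε / (2 * (K4 + 1))) (En s n u)]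
  linarith

end Pool.Agent.U401.DE
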