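import Pool.Agent.U136.DS.Stm

set_option autoImplicit false

/-!
Project DE: the Euler equations on the torus `(ℝ / 2πℤ) ^ 3` with a random dispersive term
of high order. Statements of the parts of the proof (variants without viscosity, `0 ≤ ν`, of the
statements of project DS).
-/

namespace Pool.Agent.U401.DE

open MeasureTheory ProbabilityTheory Pool.Agent.N983.RT Pool.Agent.U136.DS

/-! Solutions. -/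

/-- (ODE0) the truncated systems have global solutions -/
def S_ODE0 : Prop := S_ALG → ∀ (ν : ℝ) (lam : Wv → ℝ) (n : ℕ), 0 ≤ ν → Disp lam →
  ∀ u₀ : Fld, Adm u₀ →
    ∃ u : ℝ → Fld, IsSolD (cutg n one) ν lam u ∧ u 0 = cut n u₀ ∧
      ∀ t, 0 ≤ t → ∀ k, k ∉ cub n → u t k = 0

/-- (CMP0) passage to the limit -/
def S_CMP0 : Prop := S_SUM → S_RHS → ∀ (ν : ℝ) (lam : Wv → ℝ), 0 ≤ ν → Disp lam →
  ∀ u₀ : Fld, Adm u₀ → Rapid u₀ → ∀ U : ℕ → ℝ → Fld, (∀ n, IsSolD (cutg n one) ν lam (U n)) →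
  (∀ n, U n 0 = cut n u₀) →
  (∀ (T : ℝ) (s : ℕ), ∃ C : ℝ, ∀ n t, 0 ≤ t → t ≤ T → ∀ k i, (1 + nsq k) ^ s * ‖U n t k i‖ ≤ C) →
    ∃ u : ℝ → Fld, IsSolD one ν lam u ∧ u 0 = u₀

/-- (UNQ0) uniqueness -/
def S_UNQ0 : Prop := S_SUM → ∀ (ν : ℝ) (lam : Wv → ℝ), 0 ≤ ν → Disp lam →
  ∀ u v : ℝ → Fld, IsSolD one ν lam u → IsSolD one ν lam v → u 0 = v 0 → ∀ t, 0 ≤ t → u t = v t

/-! The normal form. -/

/-- (QB0) the correction of the Sobolev norms is small -/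
def S_QB0 : Prop := S_S3 → ∀ (lam : Wv → ℝ) (c₁ τ : ℝ), 0 < c₁ → 5 < τ → τ < 6 →
  ∀ s : ℕ, 3 ≤ s → ∀ M ε : ℝ, 0 < ε → ∃ C : ℝ, ∀ (n : ℕ) (u : Fld), Adm u →
    (∀ k, k ∉ cub n → u k = 0) → En 0 n u ≤ M → ‖form (hnf lam c₁ τ) s n u‖ ≤ ε * En s n u + C

/-- (RB0) the remainder of the normal form, without any help of the viscosity -/
def S_RB0 : Prop := S_S3 → S_S4 → ∀ (lam : Wv → ℝ) (c₁ τ ν : ℝ), 0 < c₁ → 5 < τ → τ < 6 → 0 ≤ ν →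
  ∀ s : ℕ, 3 ≤ s → ∀ M ε : ℝ, 0 < ε → ∃ C : ℝ, ∀ (n : ℕ) (u : Fld), Adm u →
    (∀ k, k ∉ cub n → u k = 0) → En 0 n u ≤ M →
      ‖dform (hnf lam c₁ τ) s n u (rhs (cutg n one) ν 1 u)‖ ≤ ε * En s n u + C

/-- all near-resonant triads are in the cube `cub R₀` -/
def Fin0 (lam : Wv → ℝ) (c₁ τ : ℝ) (R₀ : ℕ) : Prop := ∀ k l : Wv,
  near lam c₁ τ k l (-(k + l)) ≠ 0 → k ∈ cub R₀ ∧ l ∈ cub R₀

/-- (NB0) the near-resonant triads, if they are finitely many -/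
def S_NB0 : Prop := ∀ (lam : Wv → ℝ) (c₁ τ : ℝ) (R₀ : ℕ), Fin0 lam c₁ τ R₀ →
  ∀ s : ℕ, ∀ M : ℝ, ∃ C : ℝ, ∀ (n : ℕ) (u : Fld), Adm u →
    (∀ k, k ∉ cub n → u k = 0) → En 0 n u ≤ M → ‖form (near lam c₁ τ) s n u‖ ≤ C

/-- (APR0) a priori bounds for the truncated systems -/
def S_APR0 : Prop := S_SUM → S_ALG → ∀ (ν : ℝ) (lam : Wv → ℝ) (c₁ τ : ℝ), 0 ≤ ν → Disp lam →
  0 < c₁ →
  -- QB0, RB0, NB0 for `lam`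
  (∀ s : ℕ, 3 ≤ s → ∀ M ε : ℝ, 0 < ε → ∃ C : ℝ, ∀ (n : ℕ) (u : Fld), Adm u →
    (∀ k, k ∉ cub n → u k = 0) → En 0 n u ≤ M →
      ‖form (hnf lam c₁ τ) s n u‖ ≤ ε * En s n u + C ∧
      ‖dform (hnf lam c₁ τ) s n u (rhs (cutg n one) ν 1 u)‖ ≤ ε * En s n u + C ∧
      ‖form (near lam c₁ τ) s n u‖ ≤ C) →
  S_DQ →
  ∀ u₀ : Fld, Adm u₀ → Rapid u₀ → ∀ (s : ℕ) (T : ℝ), ∃ C : ℝ, ∀ (n : ℕ) (u : ℝ → Fld),
    IsSolD (cutg n one) ν lam u → u 0 = cut n u₀ → (∀ t, 0 ≤ t → ∀ k, k ∉ cub n → u t k = 0) →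
      ∀ t, 0 ≤ t → t ≤ T → En s n (u t) ≤ C

/-! Random dispersion. -/

/-- (PR1) one triad -/
def S_PR1 : Prop := ∀ (D σ τ : ℝ), 0 ≤ D → 0 < σ → 0 < τ → τ < σ →
  ∀ (Ω : Type) [MeasurableSpace Ω] (μ : Measure Ω) [IsProbabilityMeasure μ]
  (Z : Sym2 Wv → Ω → ℝ) (e : Wv → ℝ), (∀ c, Measurable (Z c)) → iIndepFun Z μ → Sgn e →
  Dens μ Z D → ∀ k l : Wv, k ≠ 0 → l ≠ 0 → k + l ≠ 0 →
    μ {ω | near (rlam σ e Z ω) 1 τ k l (-(k + l)) ≠ 0} ≤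
      ENNReal.ofReal (2 * D * (nsq k ^ ((τ - σ) / 4) * nsq l ^ ((τ - σ) / 4)))

/-- (FIN) almost surely there are finitely many near-resonant triads -/
def S_FIN : Prop := S_PR1 → ∀ (D σ τ : ℝ), 0 ≤ D → 0 < σ → 0 < τ → τ + 6 < σ →
  ∀ (Ω : Type) [MeasurableSpace Ω] (μ : Measure Ω) [IsProbabilityMeasure μ]
  (Z : Sym2 Wv → Ω → ℝ) (e : Wv → ℝ), (∀ c, Measurable (Z c)) → iIndepFun Z μ → Sgn e →
  Dens μ Z D → ∀ᵐ ω ∂μ, ∃ R₀ : ℕ, Fin0 (rlam σ e Z ω) 1 τ R₀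

end Pool.Agent.U401.DE
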