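import Pool.Agent.U401.DE.Stm
import Pool.Agent.U208.DS.UNQD

/-!
Project EU, part UNQ0: uniqueness, `0 ≤ ν`. Adapted from the parts UNQ of project RT (helper477) and
UNQD of project DS (helper208).
-/

set_option autoImplicit false

namespace Pool.Agent.U401.DE

open Filter Topology Finset Pool.Agent.N983.RT Pool.Agent.U136.DS Pool.Agent.U208.DS
open scoped ComplexConjugate

noncomputable section

theorem unq_energy0 {g : Wv → Wv → Wv → ℝ} {ν α : ℝ} (hν : 0 ≤ ν) {u v : Fld} (hu : Adm u)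
    (hv : Adm v) (m : Wv) :
    ∑ j, (conj ((u - v) m j) * unq_d g ν α u v m j).re ≤
      (-Complex.I * ∑ j, conj ((u - v) m j) * (conv g u m j - conv g v m j)).re := by
  unfold unq_d
  split_ifs with hm
  · subst hm
    have h1 : ∀ j, (u - v) 0 j = 0 := by
      intro j
      show u 0 j - v 0 j = 0
      rw [hu.zero, hv.zero]
      simp
    simp [h1]
  · have hdiv : dt ((u - v) m) m = 0 := by
      have h8 : dt ((u - v) m) m = dt (u m) m - dt (v m) m := by
        unfold dt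
        rw [← Finset.sum_sub_distrib]
        refine Finset.sum_congr rfl fun i _ => ?_
        show (u m i - v m i) * _ = _
        ring
      rw [h8, hu.div, hv.div, sub_zero]
    have h1 := unq_prj m ((u - v) m) (conv g u m) (conv g v m) hdiv
    rw [← h1, Finset.mul_sum, Complex.re_sum]
    refine Finset.sum_le_sum fun j _ => ?_
    obtain ⟨c, hc, hc0⟩ : ∃ c : ℝ, c = ν * nsq m ^ α ∧ 0 ≤ c :=
      ⟨_, rfl, mul_nonneg hν (Real.rpow_nonneg (unq_nsq m) _)⟩
    have h2 : rhs g ν α u m j - rhs g ν α v m j = -((c : ℂ) * (u - v) m j) +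
        -Complex.I * (prj m (conv g u m) j - prj m (conv g v m) j) := by
      unfold rhs
      rw [← hc]
      show _ = -((c : ℂ) * (u m j - v m j)) + _
      ring
    rw [h2]
    have h3 : conj ((u - v) m j) * (-((c : ℂ) * (u - v) m j) +
        -Complex.I * (prj m (conv g u m) j - prj m (conv g v m) j)) =
        -((c * ‖(u - v) m j‖ ^ 2 : ℝ) : ℂ) + -Complex.I * (conj ((u - v) m j) *
          (prj m (conv g u m) j - prj m (conv g v m) j)) := by
      have h4 : conj ((u - v) m j) * (u - v) m j = ((‖(u - v) m j‖ ^ 2 : ℝ) : ℂ) := by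
        rw [← Complex.normSq_eq_conj_mul_self, Complex.normSq_eq_norm_sq]
      push_cast at h4 ⊢
      linear_combination (-(c : ℂ)) * h4
    rw [h3, Complex.add_re, Complex.neg_re, Complex.ofReal_re]
    have h5 : 0 ≤ c * ‖(u - v) m j‖ ^ 2 := by positivity
    linarith

/-- (UNQ0) uniqueness -/
theorem t_UNQ0 : S_UNQ0 := by
  intro hS ν lam hν _ u v hu hv h0 T hT
  obtain ⟨g, hgd⟩ : ∃ g : Wv → Wv → Wv → ℝ, g = one := ⟨_, rfl⟩
  have hg : Arr g := hgd ▸ arr_one
  rw [← hgd] at hu hv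
  obtain ⟨α, hα⟩ : ∃ α : ℝ, α = 1 := ⟨_, rfl⟩
  have hS' : Summable unq_q := hS
  obtain ⟨C1, hC1⟩ := hu.decay T 4
  obtain ⟨C2, hC2⟩ := hv.decay T 4
  obtain ⟨D, hD⟩ : ∃ D : ℝ, D = 3 * C1 + 3 * C2 := ⟨_, rfl⟩
  have hC10 : 0 ≤ C1 :=
    le_trans (mul_nonneg (pow_nonneg (by linarith [unq_W 0]) 4) (norm_nonneg _))
      (hC1 0 le_rfl hT 0 0)
  have hC20 : 0 ≤ C2 :=
    le_trans (mul_nonneg (pow_nonneg (by linarith [unq_W 0]) 4) (norm_nonneg _))
      (hC2 0 le_rfl hT 0 0)
  have hGu : ∀ t, 0 ≤ t → t ≤ T → unq_G D (u t) := by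
    intro t h1 h2 k
    unfold unq_a
    rw [Finset.mul_sum]
    refine (Finset.sum_le_sum fun j _ => hC1 t h1 h2 k j).trans ?_
    simp
    linarith
  have hGv : ∀ t, 0 ≤ t → t ≤ T → unq_G D (v t) := by
    intro t h1 h2 k
    unfold unq_a
    rw [Finset.mul_sum]
    refine (Finset.sum_le_sum fun j _ => hC2 t h1 h2 k j).trans ?_
    simp
    linarith
  have hGw : ∀ t, 0 ≤ t → t ≤ T → unq_G D (u t - v t) := by
    intro t h1 h2 k
    unfold unq_a
    rw [Finset.mul_sum]
    have h3 : ∀ j, (1 + nsq k) ^ 4 * ‖(u t - v t) k j‖ ≤ C1 + C2 := by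
      intro j
      have h4 : ‖(u t - v t) k j‖ ≤ ‖u t k j‖ + ‖v t k j‖ := norm_sub_le _ _
      have h5 := hC1 t h1 h2 k j
      have h6 := hC2 t h1 h2 k j
      have h7 : 0 ≤ (1 + nsq k) ^ 4 := pow_nonneg (by linarith [unq_W k]) 4
      nlinarith
    refine (Finset.sum_le_sum fun j _ => h3 j).trans ?_
    simp
    linarith
  have hD0 : 0 ≤ D := by linarith
  have hσ : 0 ≤ ∑' k, unq_q k := tsum_nonneg unq_q_nonneg
  obtain ⟨σ, hσd⟩ : ∃ σ : ℝ, σ = ∑' k, unq_q k := ⟨_, rfl⟩
  rw [← hσd] at hσ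
  obtain ⟨K, hK⟩ : ∃ K : ℝ, K = 6 * D * σ + 4 * D ^ 3 * σ := ⟨_, rfl⟩
  have hK1 : 0 ≤ 6 * D * σ := by positivity
  have hK2 : 0 ≤ 4 * D ^ 3 * σ := by positivity
  -- the energy estimate
  have key : ∀ n : ℕ, unq_E n (u T - v T) ≤ (σ - ∑ k ∈ cub n, unq_q k) * Real.exp (K * T) := by
    intro n
    have hτ : 0 ≤ σ - ∑ k ∈ cub n, unq_q k := by
      rw [hσd]
      exact sub_nonneg.2 (hS'.sum_le_tsum _ fun k _ => unq_q_nonneg k)
    obtain ⟨τ, hτd⟩ : ∃ τ : ℝ, τ = σ - ∑ k ∈ cub n, unq_q k := ⟨_, rfl⟩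
    rw [← hτd] at hτ ⊢
    obtain ⟨E', hE'⟩ : ∃ E' : ℝ → ℝ, ∀ t, E' t = ∑ m ∈ cub n, ∑ j,
      2 * (conj ((u t - v t) m j) * unq_d g ν α (u t) (v t) m j).re := ⟨_, fun _ => rfl⟩
    have hder : ∀ t, 0 ≤ t → HasDerivWithinAt (fun t => unq_E n (u t - v t)) (E' t)
        (Set.Ici 0) t := by
      intro t ht
      rw [hE']
      rw [hα]
      exact dd_deriv_E hu hv n t ht
    have hbd : ∀ t, 0 ≤ t → t ≤ T → E' t ≤ K * (unq_E n (u t - v t) + τ) := by
      intro t h1 h2
      have hE0 : 0 ≤ unq_E n (u t - v t) :=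
        Finset.sum_nonneg fun _ _ => Finset.sum_nonneg fun _ _ => sq_nonneg _
      have h3 := unq_static hS' hg (hu.adm t h1) (hGu t h1 h2) (hGv t h1 h2) (hGw t h1 h2) n
      rw [← hσd, ← hτd] at h3
      have h4 : E' t ≤ 2 * (-Complex.I * ∑ m ∈ cub n, ∑ j, conj ((u t - v t) m j) *
          (conv g (u t) m j - conv g (v t) m j)).re := by
        rw [hE', Finset.mul_sum (cub n), Complex.re_sum, Finset.mul_sum]
        refine Finset.sum_le_sum fun m _ => ?_
        rw [← Finset.mul_sum]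
        exact mul_le_mul_of_nonneg_left (unq_energy0 hν (hu.adm t h1) (hv.adm t h1) m) zero_le_two
      rw [hK]
      nlinarith [mul_nonneg hK2 hE0, mul_nonneg hK1 hτ]
    have hh : ∀ t, 0 ≤ t → HasDerivWithinAt
        (fun t => (unq_E n (u t - v t) + τ) * Real.exp (-(K * t)))
        (E' t * Real.exp (-(K * t)) + (unq_E n (u t - v t) + τ) *
          (Real.exp (-(K * t)) * (-(K * 1)))) (Set.Ici 0) t := by
      intro t ht
      have h1 : HasDerivWithinAt (fun t : ℝ => Real.exp (-(K * t)))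
          (Real.exp (-(K * t)) * (-(K * 1))) (Set.Ici 0) t :=
        (((hasDerivAt_id t).const_mul K).fun_neg.exp).hasDerivWithinAt
      exact ((hder t ht).add_const τ).mul h1
    have hanti : AntitoneOn (fun t => (unq_E n (u t - v t) + τ) * Real.exp (-(K * t)))
        (Set.Icc 0 T) := by
      refine antitoneOn_of_deriv_nonpos (convex_Icc 0 T) ?_ ?_ ?_
      · intro t ht
        exact ((hh t ht.1).continuousWithinAt).mono Set.Icc_subset_Ici_self
      · intro t ht
        rw [interior_Icc] at ht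
        exact ((hh t ht.1.le).hasDerivAt (Ici_mem_nhds ht.1)).differentiableAt.differentiableWithinAt
      · intro t ht
        rw [interior_Icc] at ht
        rw [((hh t ht.1.le).hasDerivAt (Ici_mem_nhds ht.1)).deriv]
        have h1 := hbd t ht.1.le ht.2.le
        have h2 := Real.exp_pos (-(K * t))
        nlinarith
    have h1 := hanti (Set.left_mem_Icc.2 hT) (Set.right_mem_Icc.2 hT) hT
    have h2 : unq_E n (u 0 - v 0) = 0 := by
      rw [h0, sub_self]
      simp [unq_E]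
    have h3 : (unq_E n (u T - v T) + τ) * Real.exp (-(K * T)) ≤
        (unq_E n (u 0 - v 0) + τ) * Real.exp (-(K * 0)) := h1
    rw [h2, mul_zero, neg_zero, Real.exp_zero, mul_one, zero_add] at h3
    have h4 := Real.exp_pos (K * T)
    have h5 : Real.exp (-(K * T)) * Real.exp (K * T) = 1 := by
      rw [← Real.exp_add]
      simp
    have h6 : unq_E n (u T - v T) + τ ≤ τ * Real.exp (K * T) := by
      have h7 := mul_le_mul_of_nonneg_right h3 h4.le
      rwa [mul_assoc, h5, mul_one] at h7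
    linarith
  -- the limit
  have hlim : Tendsto (fun n : ℕ => (σ - ∑ k ∈ cub n, unq_q k) * Real.exp (K * T)) atTop
      (𝓝 ((σ - σ) * Real.exp (K * T))) := by
    refine Tendsto.mul_const _ (Tendsto.const_sub _ ?_)
    rw [hσd]
    exact hS'.hasSum.comp unq_cub
  rw [sub_self, zero_mul] at hlim
  funext m j
  have h1 : ∀ᶠ n : ℕ in atTop, m ∈ cub n := by
    have h2 := unq_cub.eventually (eventually_ge_atTop ({m} : Finset Wv))
    refine h2.mono fun n hn => ?_
    exact hn (Finset.mem_singleton_self m)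
  have h3 : ‖(u T - v T) m j‖ ^ 2 ≤ 0 := by
    refine ge_of_tendsto hlim (h1.mono fun n hn => le_trans ?_ (key n))
    unfold unq_E
    refine le_trans ?_ (Finset.single_le_sum (f := fun m => ∑ j, ‖(u T - v T) m j‖ ^ 2)
      (fun _ _ => Finset.sum_nonneg fun _ _ => sq_nonneg _) hn)
    exact Finset.single_le_sum (f := fun j => ‖(u T - v T) m j‖ ^ 2)
      (fun _ _ => sq_nonneg _) (Finset.mem_univ j)
  have h4 : (u T - v T) m j = 0 := by
    have h5 : ‖(u T - v T) m j‖ = 0 := by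
      have := norm_nonneg ((u T - v T) m j)
      nlinarith
    exact norm_eq_zero.1 h5
  have h6 : u T m j - v T m j = 0 := h4
  exact sub_eq_zero.1 h6

end

end Pool.Agent.U401.DE
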